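import Pool.Agent.H45.TR.Minor
import Pool.Agent.H26.TR.Glob

set_option autoImplicit false

/-!
The codes `N_s` of a global code whose only `{0,z}`-words are `0` and `z1` have no `{0,z}`-word
(MP_a46c6f_co, note 6830 (1) (a)).
-/

namespace Pool.Agent.H26.TR

open Finset Pool.Agent.H98.Code Pool.Agent.H45.TR

variable {V : Type} [Fintype V] [DecidableEq V]
variable {L : Submodule (ZMod 2) (V → K)} {e : V} {D : V → K} {P : Finset (Finset V)}
  {h : Finset V → V}

theorem IsParts.parts (hP : IsParts L e D P) : Pool.Agent.H45.TR.Parts L e D P :=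
  ⟨fun M hM => (hP.mem M hM).1, fun M hM => (hP.mem M hM).2.1, fun M hM => (hP.mem M hM).2.2,
    hP.disj, hP.cover, hP.union⟩

theorem glob_noZ_N (H : Hyp L e D) (hP : IsParts L e D P)
    (hz : ∀ u ∈ L, ZOnly u → u = 0 ∨ ∀ v, u v = z) {M₀ M' : Finset V}
    (hM₀ : M₀ ∈ P) (hM' : M' ∈ P) (hne : M' ≠ M₀) (hh : ∀ M ∈ P.erase M₀, h M ∈ M) :
    NoZ (N L D (P.erase M₀) h) := by
  intro a ha hza
  obtain ⟨u, hu, hus, rfl⟩ := ha
  have heW : ∀ M ∈ P.erase M₀, e ∉ M := fun M hM => (hP.mem M (Finset.mem_of_mem_erase hM)).2.1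
  have hue : (u e).1 = 0 := hza ⟨e, heW⟩
  have hsub : P.erase M₀ ⊆ P := Finset.erase_subset _ _
  have hle : ∀ v, v ∉ M₀ → v ≠ e → u v = 0 ∨ u v = D v := by
    intro v hv hve
    obtain ⟨M, hM, hvM⟩ := hP.cover v hve
    have hMM : M ≠ M₀ := by
      rintro rfl
      exact hv hvM
    exact le_D H.iso hP.parts hsub H.letter hh hu hue hus
      ((nmem_range_iff _ v).2 ⟨M, Finset.mem_erase.2 ⟨hMM, hM⟩, hvM⟩)
  have h0 : ∀ v, v ∈ M₀ → (u v).1 = 0 := by
    intro v hv
    have hvW : ∀ M ∈ P.erase M₀, v ∉ M := by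
      intro M hM hvM
      have hM1 := Finset.mem_erase.1 hM
      exact Finset.disjoint_left.1 (hP.disj M hM1.2 M₀ hM₀ hM1.1) hvM hv
    exact hza ⟨v, hvW⟩
  have hM0 : ∀ v, v ∈ M₀ → u v = 0 :=
    hP.glob_noZ H hz hM₀ hM' hne hu hle ((fst_zero_iff _).1 hue) h0
  have hKD : KD L D e u := by
    refine ⟨hu, ?_, (fst_zero_iff _).1 hue⟩
    intro v hve
    by_cases hv : v ∈ M₀
    · exact Or.inl (hM0 v hv)
    · exact hle v hv hve
  have hall : ∀ v, v ≠ e → u v = 0 := by
    intro v hve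
    obtain ⟨M, hM, hvM⟩ := hP.cover v hve
    by_cases hMM : M = M₀
    · exact hM0 v (hMM ▸ hvM)
    · have hME : M ∈ P.erase M₀ := Finset.mem_erase.2 ⟨hMM, hM⟩
      have h1 : u (h M) = 0 := eq_zero_h H.iso hP.parts hsub H.letter hh hu hue hus hME
      rcases hP.union u hKD M hM with h2 | h2
      · have := (mem_sup.1 (h2 (hh M hME))).2
        exact absurd h1 this
      · by_contra hne'
        exact Finset.disjoint_left.1 h2 hvM (mem_sup.2 ⟨hve, hne'⟩)
  have hu0 : u = 0 := by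
    funext v
    by_cases hve : v = e
    · rw [hve]
      rcases (fst_zero_iff _).1 hue with h1 | h1
      · exact h1
      · exact absurd h1 (H.noz u hu hall)
    · exact hall v hve
  rw [hu0]
  rfl

end Pool.Agent.H26.TR
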