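import Pool.Agent.H26.TR.Pair

set_option autoImplicit false

/-!
Hereditary codes (MP_a46c6f_co, target (A), helper28's note): the condition (HER) for abstract codes, its
inheritance to pair codes and to the deletion of a leaf.
-/

namespace Pool.Agent.H26.TR

open Finset Pool.Agent.H98.Code

section Defs

variable {V : Type}

/-- words of `L` which are `≤ x` on `P` and `{0,z}` on `E` -/
def Rest (L : Submodule (ZMod 2) (V → K)) (E P : Finset V) (x : V → K) (u : V → K) : Prop :=
  u ∈ L ∧ (∀ v, v ∈ P → u v = 0 ∨ u v = x v) ∧ (∀ v, v ∈ E → (u v).1 = 0)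

/-- `(E, P, x)` is covered -/
def Cov (L : Submodule (ZMod 2) (V → K)) (E P : Finset V) (x : V → K) : Prop :=
  Disjoint E P ∧ (∀ v, v ∈ P → (x v).1 = 1) ∧
    ∀ p, p ∈ P → ∃ u, Rest L E P x u ∧ (∀ v, v ∉ E → v ∉ P → u v = 0) ∧ u p = x p

/-- the conclusion of (HER) for `(E, P, x)`: a bridge or a full state -/
def HerAt (L : Submodule (ZMod 2) (V → K)) (E P : Finset V) (x : V → K) : Prop :=
  (∃ g, g ∉ E ∧ g ∉ P ∧ ∃ u, Rest L E P x u ∧ u g = z ∧ ∀ v, v ∉ E → v ∉ P → v ≠ g → u v = 0) ∨
  (∃ ψ : V → K, (∀ v, (ψ v).1 = 1) ∧ ∀ q, q ∉ E → q ∉ P →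
    ∃ u, Rest L E P x u ∧ (∀ v, v ∉ E → v ∉ P → u v = 0 ∨ u v = ψ v) ∧ u q = ψ q)

/-- the condition (HER) -/
def HER (L : Submodule (ZMod 2) (V → K)) : Prop :=
  ∀ (E P : Finset V) (x : V → K), Cov L E P x → HerAt L E P x

/-- the condition (HER) for `(E, P)` not both empty -/
def HER' (L : Submodule (ZMod 2) (V → K)) : Prop :=
  ∀ (E P : Finset V) (x : V → K), (E ≠ ∅ ∨ P ≠ ∅) → Cov L E P x → HerAt L E P x

theorem HER.her' {L : Submodule (ZMod 2) (V → K)} (h : HER L) : HER' L :=
  fun E P x _ hc => h E P x hc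

end Defs

variable {V : Type} [Fintype V] [DecidableEq V]
variable {L : Submodule (ZMod 2) (V → K)} {e : V} {D : V → K} {P₀ : Finset (Finset V)}

theorem fst_zero_iff (a : K) : a.1 = 0 ↔ a = 0 ∨ a = z := by
  revert a; decide

theorem K_ne_zero_of_fst {a : K} (h : a.1 = 1) : a ≠ 0 := by
  rintro rfl
  exact absurd h (by decide)

/-- (HER) for the pair code of a part -/
theorem IsParts.her (hP : IsParts L e D P₀) (h : Hyp L e D) (hH : HER' L) {M : Finset V} (hM : M ∈ P₀) :
    HER (pairCode L D e M) := by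
  classical
  have heM : e ∉ M := (hP.mem M hM).2.1
  have hne : ∀ v, v ∈ M → v ≠ e := fun v hv h0 => heM (h0 ▸ hv)
  intro E P x hc
  -- the lifted data
  set E' : Finset V := insert e (E.map (Function.Embedding.subtype _)) with hE'
  set P' : Finset V := P.map (Function.Embedding.subtype _) ∪ (univ.filter fun v => v ∉ M ∧ v ≠ e) with hP'
  set x' : V → K := fun v => if hv : v ∈ M then x ⟨v, hv⟩ else D v with hx'
  have memE : ∀ (v : V) (hv : v ∈ M), v ∈ E' ↔ (⟨v, hv⟩ : {v // v ∈ M}) ∈ E := by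
    intro v hv
    rw [hE', Finset.mem_insert, Finset.mem_map]
    constructor
    · rintro (h0 | ⟨a, ha, rfl⟩)
      · exact absurd h0 (hne v hv)
      · exact ha
    · intro h0
      exact Or.inr ⟨⟨v, hv⟩, h0, rfl⟩
  have memE2 : ∀ v : V, v ∉ M → (v ∈ E' ↔ v = e) := by
    intro v hv
    rw [hE', Finset.mem_insert, Finset.mem_map]
    constructor
    · rintro (h0 | ⟨a, ha, rfl⟩)
      · exact h0
      · exact absurd a.2 hv
    · intro h0
      exact Or.inl h0
  have memP : ∀ (v : V) (hv : v ∈ M), v ∈ P' ↔ (⟨v, hv⟩ : {v // v ∈ M}) ∈ P := by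
    intro v hv
    rw [hP', Finset.mem_union, Finset.mem_map, Finset.mem_filter]
    constructor
    · rintro (⟨a, ha, rfl⟩ | h0)
      · exact ha
      · exact absurd hv h0.2.1
    · intro h0
      exact Or.inl ⟨⟨v, hv⟩, h0, rfl⟩
  have memP2 : ∀ v : V, v ∉ M → (v ∈ P' ↔ v ≠ e) := by
    intro v hv
    rw [hP', Finset.mem_union, Finset.mem_map, Finset.mem_filter]
    constructor
    · rintro (⟨a, ha, rfl⟩ | h0)
      · exact absurd a.2 hv
      · exact h0.2.2
    · intro h0
      exact Or.inr ⟨Finset.mem_univ _, hv, h0⟩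
  have x1 : ∀ (v : V) (hv : v ∈ M), x' v = x ⟨v, hv⟩ := by
    intro v hv
    rw [hx']
    simp only [dif_pos hv]
  have x2 : ∀ v : V, v ∉ M → x' v = D v := by
    intro v hv
    rw [hx']
    simp only [dif_neg hv]
  -- translation of words
  have lift : ∀ u : V → K, (Rest (pairCode L D e M) E P x (fun y => u y.1) ∧ u ∈ L ∧
      (∀ v, v ∉ M → v ≠ e → u v = 0 ∨ u v = D v) ∧ (u e = 0 ∨ u e = z)) → Rest L E' P' x' u := by
    rintro u ⟨⟨_, h1, h2⟩, hu, h3, h4⟩
    refine ⟨hu, ?_, ?_⟩
    · intro v hv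
      by_cases hvM : v ∈ M
      · rw [x1 v hvM]
        exact h1 ⟨v, hvM⟩ ((memP v hvM).1 hv)
      · rw [x2 v hvM]
        exact h3 v hvM ((memP2 v hvM).1 hv)
    · intro v hv
      by_cases hvM : v ∈ M
      · exact h2 ⟨v, hvM⟩ ((memE v hvM).1 hv)
      · rw [(memE2 v hvM).1 hv, fst_zero_iff]
        exact h4
  have down : ∀ u : V → K, Rest L E' P' x' u → Rest (pairCode L D e M) E P x (fun y => u y.1) := by
    rintro u ⟨hu, h1, h2⟩
    refine ⟨?_, ?_, ?_⟩
    · rw [h.mem_pairCode heM]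
      refine ⟨u, hu, ?_, ?_, rfl⟩
      · intro v hv hve
        have := h1 v ((memP2 v hv).2 hve)
        rwa [x2 v hv] at this
      · have := h2 e ((memE2 e heM).2 rfl)
        rwa [fst_zero_iff] at this
    · rintro ⟨v, hv⟩ hvP
      have := h1 v ((memP v hv).2 hvP)
      rwa [x1 v hv] at this
    · rintro ⟨v, hv⟩ hvE
      exact h2 v ((memE v hv).2 hvE)
  have hcov : Cov L E' P' x' := by
    refine ⟨?_, ?_, ?_⟩
    · rw [Finset.disjoint_left]
      intro v hvE hvP
      by_cases hvM : v ∈ M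
      · exact Finset.disjoint_left.1 hc.1 ((memE v hvM).1 hvE) ((memP v hvM).1 hvP)
      · exact (memP2 v hvM).1 hvP ((memE2 v hvM).1 hvE)
    · intro v hv
      by_cases hvM : v ∈ M
      · rw [x1 v hvM]
        exact hc.2.1 _ ((memP v hvM).1 hv)
      · rw [x2 v hvM]
        exact h.letter v ((memP2 v hvM).1 hv)
    · intro p hp
      by_cases hpM : p ∈ M
      · obtain ⟨a, ha, ha0, hap⟩ := hc.2.2 ⟨p, hpM⟩ ((memP p hpM).1 hp)
        have ha' := ha
        obtain ⟨ha1, -, -⟩ := ha
        rw [h.mem_pairCode heM] at ha1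
        obtain ⟨u, hu, h3, h4, rfl⟩ := ha1
        refine ⟨u, lift u ⟨ha', hu, h3, h4⟩, ?_, ?_⟩
        · intro v hvE hvP
          by_cases hvM : v ∈ M
          · exact ha0 ⟨v, hvM⟩ (fun h0 => hvE ((memE v hvM).2 h0)) (fun h0 => hvP ((memP v hvM).2 h0))
          · exfalso
            by_cases hve : v = e
            · exact hvE ((memE2 v hvM).2 hve)
            · exact hvP ((memP2 v hvM).2 hve)
        · rw [x1 p hpM]
          exact hap
      · have hpe : p ≠ e := (memP2 p hpM).1 hp
        obtain ⟨M', hM', hpM'⟩ := hP.cover p hpe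
        have hMM' : M' ≠ M := by
          rintro rfl
          exact hpM hpM'
        have hdis := hP.disj M' hM' M hM hMM'
        have hz0 : ∀ v, v ∈ M → pw D e M' v = 0 := by
          intro v hv
          unfold pw
          rw [if_neg (hne v hv), if_neg (fun h0 => Finset.disjoint_left.1 hdis h0 hv)]
        refine ⟨pw D e M', ⟨(hP.mem M' hM').2.2, ?_, ?_⟩, ?_, ?_⟩
        · intro v hv
          by_cases hvM : v ∈ M
          · exact Or.inl (hz0 v hvM)
          · rw [x2 v hvM]
            unfold pw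
            rw [if_neg ((memP2 v hvM).1 hv)]
            by_cases hvM' : v ∈ M'
            · rw [if_pos hvM']; exact Or.inr rfl
            · rw [if_neg hvM']; exact Or.inl rfl
        · intro v hv
          by_cases hvM : v ∈ M
          · rw [hz0 v hvM]; rfl
          · rw [(memE2 v hvM).1 hv]
            unfold pw
            rw [if_pos rfl]; rfl
        · intro v hvE hvP
          by_cases hvM : v ∈ M
          · exact hz0 v hvM
          · exfalso
            by_cases hve : v = e
            · exact hvE ((memE2 v hvM).2 hve)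
            · exact hvP ((memP2 v hvM).2 hve)
        · rw [x2 p hpM]
          unfold pw
          rw [if_neg hpe, if_pos hpM']
  have hE0 : E' ≠ ∅ := Finset.ne_empty_of_mem (hE' ▸ Finset.mem_insert_self e _)
  have hoff : ∀ v, v ∉ E' → v ∉ P' → v ∈ M := by
    intro v h1 h2
    by_contra hvM
    by_cases hve : v = e
    · exact h1 ((memE2 v hvM).2 hve)
    · exact h2 ((memP2 v hvM).2 hve)
  rcases hH E' P' x' (Or.inl hE0) hcov with ⟨g, hgE, hgP, u, hu, hug, hu0⟩ | ⟨ψ, hψ, hfull⟩
  · left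
    have hgM : g ∈ M := hoff g hgE hgP
    refine ⟨⟨g, hgM⟩, fun h0 => hgE ((memE g hgM).2 h0), fun h0 => hgP ((memP g hgM).2 h0),
      fun y => u y.1, down u hu, hug, ?_⟩
    rintro ⟨v, hv⟩ h1 h2 h3
    exact hu0 v (fun h0 => h1 ((memE v hv).1 h0)) (fun h0 => h2 ((memP v hv).1 h0))
      (fun h0 => h3 (Subtype.ext h0))
  · right
    refine ⟨fun y => ψ y.1, fun y => hψ y.1, ?_⟩
    rintro ⟨q, hq⟩ h1 h2
    obtain ⟨u, hu, hu1, hu2⟩ := hfull q (fun h0 => h1 ((memE q hq).1 h0)) (fun h0 => h2 ((memP q hq).1 h0))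
    refine ⟨fun y => u y.1, down u hu, ?_, hu2⟩
    rintro ⟨v, hv⟩ h3 h4
    exact hu1 v (fun h0 => h3 ((memE v hv).1 h0)) (fun h0 => h4 ((memP v hv).1 h0))

/-- the hypotheses of the tree claim -/
structure Claim (L : Submodule (ZMod 2) (V → K)) (ψ : V → K) : Prop where
  code : IsCode L
  noz : NoZ L
  her : HER L
  letter : ∀ v, (ψ v).1 = 1
  mem : ψ ∈ L
  unique : ∀ D' : V → K, (∀ v, (D' v).1 = 1) →
    (∀ v, ∃ u ∈ L, (∀ w, u w = 0 ∨ u w = D' w) ∧ u v ≠ 0) → ∀ v, D' v = ψ v
  corank : ∀ u ∈ L, (∀ w, u w = 0 ∨ u w = ψ w) → u = 0 ∨ u = ψ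

variable {ψ : V → K}

/-- (1): every `z`-free word other than `0` and `ψ` splits -/
theorem Claim.splits (h : Claim L ψ) {u : V → K} (hu : u ∈ L) (hz : ZFree u) (h0 : u ≠ 0) (h1 : u ≠ ψ) :
    ∃ g, Splits L u g := by
  classical
  have hlet : ∀ v, u v ≠ 0 → (u v).1 = 1 := by
    intro v hv
    have h2 := hz v
    revert hv h2
    generalize u v = a
    revert a
    decide
  have hc : Cov L ∅ (univ.filter fun v => u v ≠ 0) u := by
    refine ⟨Finset.disjoint_empty_left _, ?_, ?_⟩
    · intro v hv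
      exact hlet v (Finset.mem_filter.1 hv).2
    · intro p hp
      refine ⟨u, ⟨hu, fun v _ => Or.inr rfl, fun v hv => absurd hv (Finset.notMem_empty v)⟩, ?_, rfl⟩
      intro v _ hv
      by_contra hne
      exact hv (Finset.mem_filter.2 ⟨Finset.mem_univ _, hne⟩)
  rcases h.her _ _ _ hc with ⟨g, -, hgP, c, hcR, hcg, hc0⟩ | ⟨φ, hφ, hfull⟩
  · have hug : u g = 0 := by
      by_contra hne
      exact hgP (Finset.mem_filter.2 ⟨Finset.mem_univ _, hne⟩)
    refine ⟨g, c, hcR.1, u + c, L.add_mem hu hcR.1, ?_, hcg, ?_, ?_⟩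
    · funext v
      rw [Pi.add_apply, Pi.add_apply, add_comm (u v), ← add_assoc, K_add_self, zero_add]
    · rw [Pi.add_apply, hug, hcg, zero_add]
    · intro v hv
      by_cases hvP : u v = 0
      · left
        apply hc0 v (Finset.notMem_empty v) _ hv
        intro h2
        exact (Finset.mem_filter.1 h2).2 hvP
      · rcases hcR.2.1 v (Finset.mem_filter.2 ⟨Finset.mem_univ _, hvP⟩) with h2 | h2
        · exact Or.inl h2
        · right
          rw [Pi.add_apply, h2, K_add_self]
  · exfalso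
    have hD := h.unique (fun v => if u v = 0 then φ v else u v) ?_ ?_
    · have hle : ∀ w, u w = 0 ∨ u w = ψ w := by
        intro w
        by_cases hw : u w = 0
        · exact Or.inl hw
        · right
          have := hD w
          simp only [if_neg hw] at this
          exact this
      rcases h.corank u hu hle with h2 | h2
      · exact h0 h2
      · exact h1 h2
    · intro v
      by_cases hv : u v = 0
      · simp only [if_pos hv]; exact hφ v
      · simp only [if_neg hv]; exact hlet v hv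
    · intro v
      by_cases hv : u v = 0
      · obtain ⟨w, hw, hw1, hw2⟩ := hfull v (Finset.notMem_empty v)
          (fun h2 => (Finset.mem_filter.1 h2).2 hv)
        refine ⟨w, hw.1, ?_, ?_⟩
        · intro t
          by_cases ht : u t = 0
          · simp only [if_pos ht]
            exact hw1 t (Finset.notMem_empty t) (fun h2 => (Finset.mem_filter.1 h2).2 ht)
          · simp only [if_neg ht]
            exact hw.2.1 t (Finset.mem_filter.2 ⟨Finset.mem_univ _, ht⟩)
        · rw [hw2]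
          exact K_ne_zero_of_fst (hφ v)
      · refine ⟨u, hu, ?_, hv⟩
        intro t
        by_cases ht : u t = 0
        · exact Or.inl ht
        · right
          simp only [if_neg ht]

/-- (2): the full state at a root `e` -/
theorem Claim.hyp (h : Claim L ψ) (e : V) : ∃ D, D ∈ L ∧ Hyp L e D := by
  obtain ⟨r, hr, hre, hr0⟩ := exists_row h.code h.noz e
  have hlet : ∀ v, v ≠ e → ((ψ + r) v).1 = 1 := by
    intro v hv
    rw [Pi.add_apply, Prod.fst_add, h.letter v, hr0 v hv, add_zero]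
  refine ⟨ψ + r, L.add_mem h.mem hr, ?_, ?_, ?_, hlet, ?_⟩
  · exact h.code.iso
  · intro u hu h0 he
    have := h.noz u hu ?_
    · rw [this] at he
      exact absurd (show (0 : K) = z from he) (by decide)
    · intro v
      by_cases hv : v = e
      · rw [hv, he]; rfl
      · rw [h0 v hv]; rfl
  · intro u hu h0 hz hue
    apply h.splits hu hz h0
    intro h1
    rw [h1] at hue
    exact K_ne_zero_of_fst (h.letter e) hue
  · intro v hv
    refine ⟨ψ + r, ⟨L.add_mem h.mem hr, fun w _ => Or.inr rfl, ?_⟩, K_ne_zero_of_fst (hlet v hv)⟩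
    have : ((ψ + r) e).1 = 0 := by
      rw [Pi.add_apply, Prod.fst_add, h.letter e, hre]
      decide
    rwa [fst_zero_iff] at this

/-- (3): the pair code of a part satisfies the claim again -/
theorem Claim.pair (h : Claim L ψ) (hP : IsParts L e D P₀) (hD : Hyp L e D) {M : Finset V} (hM : M ∈ P₀) :
    Claim (pairCode L D e M) (fun x => D x.1) := by
  obtain ⟨h1, h2, h3, h4, h5⟩ := hP.pairCode_spec hD h.code h.noz hM
  refine ⟨h1, h2, hP.her hD h.her.her' hM, ?_, h3, h4, h5⟩
  intro x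
  exact hD.letter x.1 (fun h0 => (hP.mem M hM).2.1 (h0 ▸ x.2))

end Pool.Agent.H26.TR
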