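import Pool.Agent.H98.Code.AA
import Pool.Agent.H26.TR.Her

set_option autoImplicit false

/-!
The class `AA` of helper98 is the class `Claim`; inheritance of `AA` to pair codes (MP_a46c6f_co, target (A)).
-/

namespace Pool.Agent.H26.TR

open Finset Pool.Agent.H98.Code

variable {V : Type} [Fintype V] [DecidableEq V]
variable {L : Submodule (ZMod 2) (V → K)}

/-- the two forms of (HER) agree -/
theorem her_iff : Pool.Agent.H98.Code.HER L ↔ Pool.Agent.H26.TR.HER' L := by
  classical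
  constructor
  · intro h E P x hne hc
    have hcov : Covered L (E : Set V) (P : Set V) x := by
      refine ⟨by exact_mod_cast hc.1, fun v hv => hc.2.1 v (by exact_mod_cast hv), ?_⟩
      intro v hv
      have hv' : v ∈ P := by exact_mod_cast hv
      obtain ⟨u, hu, h0, hx⟩ := hc.2.2 v hv'
      refine ⟨u, hu.1, ⟨fun w hw => hu.2.2 w (by exact_mod_cast hw),
        fun w hw => hu.2.1 w (by exact_mod_cast hw)⟩, fun w h1 h2 => h0 w (by exact_mod_cast h1)
        (by exact_mod_cast h2), ?_⟩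
      rw [hx]
      exact K_ne_zero_of_fst (hc.2.1 v hv')
    have hnon : ((E : Set V) ∪ (P : Set V)).Nonempty := by
      rcases hne with h1 | h1
      · obtain ⟨a, ha⟩ := Finset.nonempty_iff_ne_empty.2 h1
        exact ⟨a, Or.inl (by exact_mod_cast ha)⟩
      · obtain ⟨a, ha⟩ := Finset.nonempty_iff_ne_empty.2 h1
        exact ⟨a, Or.inr (by exact_mod_cast ha)⟩
    rcases h (E : Set V) (P : Set V) x hcov hnon with ⟨g, hgE, hgP, u, hu, hb, hug, h0⟩ | ⟨ψ, hψ, hf⟩
    · left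
      refine ⟨g, by exact_mod_cast hgE, by exact_mod_cast hgP, u,
        ⟨hu, fun v hv => hb.2 v (by exact_mod_cast hv), fun v hv => hb.1 v (by exact_mod_cast hv)⟩, hug, ?_⟩
      intro v h1 h2 h3
      exact h0 v (by exact_mod_cast h1) (by exact_mod_cast h2) h3
    · right
      refine ⟨ψ, hψ, ?_⟩
      intro q h1 h2
      obtain ⟨u, hu, hb, hu0, huq⟩ := hf q (by exact_mod_cast h1) (by exact_mod_cast h2)
      refine ⟨u, ⟨hu, fun v hv => hb.2 v (by exact_mod_cast hv), fun v hv => hb.1 v (by exact_mod_cast hv)⟩,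
        fun v h3 h4 => hu0 v (by exact_mod_cast h3) (by exact_mod_cast h4), ?_⟩
      rcases hu0 q (by exact_mod_cast h1) (by exact_mod_cast h2) with h3 | h3
      · exact absurd h3 huq
      · exact h3
  · intro h E P s hc hne
    have mE : ∀ v, v ∈ E.toFinset ↔ v ∈ E := fun v => Set.mem_toFinset
    have mP : ∀ v, v ∈ P.toFinset ↔ v ∈ P := fun v => Set.mem_toFinset
    have hcov : Cov L E.toFinset P.toFinset s := by
      refine ⟨Set.disjoint_toFinset.2 hc.1, fun v hv => hc.2.1 v ((mP v).1 hv), ?_⟩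
      intro p hp
      obtain ⟨u, hu, hb, h0, hx⟩ := hc.2.2 p ((mP p).1 hp)
      refine ⟨u, ⟨hu, fun v hv => hb.2 v ((mP v).1 hv), fun v hv => hb.1 v ((mE v).1 hv)⟩,
        fun v h1 h2 => h0 v (fun h3 => h1 ((mE v).2 h3)) (fun h3 => h2 ((mP v).2 h3)), ?_⟩
      rcases hb.2 p ((mP p).1 hp) with h1 | h1
      · exact absurd h1 hx
      · exact h1
    have hne' : E.toFinset ≠ ∅ ∨ P.toFinset ≠ ∅ := by
      obtain ⟨a, ha⟩ := hne
      rcases ha with ha | ha
      · left
        exact Finset.ne_empty_of_mem ((mE a).2 ha)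
      · right
        exact Finset.ne_empty_of_mem ((mP a).2 ha)
    rcases h _ _ s hne' hcov with ⟨g, hgE, hgP, u, hu, hug, h0⟩ | ⟨ψ, hψ, hf⟩
    · left
      refine ⟨g, fun h1 => hgE ((mE g).2 h1), fun h1 => hgP ((mP g).2 h1), u, hu.1,
        ⟨fun v hv => hu.2.2 v ((mE v).2 hv), fun v hv => hu.2.1 v ((mP v).2 hv)⟩, hug, ?_⟩
      intro w h1 h2 h3
      exact h0 w (fun h4 => h1 ((mE w).1 h4)) (fun h4 => h2 ((mP w).1 h4)) h3
    · right
      refine ⟨ψ, hψ, ?_⟩
      intro v h1 h2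
      obtain ⟨u, hu, hu0, huv⟩ := hf v (fun h4 => h1 ((mE v).1 h4)) (fun h4 => h2 ((mP v).1 h4))
      refine ⟨u, hu.1, ⟨fun v hv => hu.2.2 v ((mE v).2 hv), fun v hv => hu.2.1 v ((mP v).2 hv)⟩,
        fun w h3 h4 => hu0 w (fun h5 => h3 ((mE w).1 h5)) (fun h5 => h4 ((mP w).1 h5)), ?_⟩
      rw [huv]
      exact K_ne_zero_of_fst (hψ v)

theorem Claim.fullState {ψ : V → K} (h : Claim L ψ) : FullState L ψ :=
  ⟨h.letter, fun v => ⟨ψ, h.mem, fun _ => Or.inr rfl, K_ne_zero_of_fst (h.letter v)⟩⟩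

theorem Claim.aa {ψ : V → K} (h : Claim L ψ) : AA L := by
  have huniq : ∀ D, FullState L D → D = ψ := by
    intro D hD
    funext v
    exact h.unique D hD.1 (fun v => hD.2 v) v
  refine ⟨h.code, h.noz, ⟨ψ, h.fullState⟩, ?_, ?_, her_iff.2 h.her.her'⟩
  · intro D D' hD hD'
    rw [huniq D hD, huniq D' hD']
  · intro D hD u hu hb
    rw [huniq D hD] at hb ⊢
    exact h.corank u hu hb

theorem AA.claim (h : AA L) : ∃ ψ, Claim L ψ := by
  obtain ⟨ψ, hψ⟩ := h.ex
  refine ⟨ψ, h.code, h.noZ, ?_, hψ.1, ?_, ?_, h.cor ψ hψ⟩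
  · intro E P x hc
    by_cases hne : E ≠ ∅ ∨ P ≠ ∅
    · exact her_iff.1 h.her E P x hne hc
    · push Not at hne
      obtain ⟨rfl, rfl⟩ : E = ∅ ∧ P = ∅ := by
        simpa using hne
      right
      refine ⟨ψ, hψ.1, ?_⟩
      intro q _ _
      obtain ⟨u, hu, hb, huq⟩ := hψ.2 q
      refine ⟨u, ⟨hu, fun v hv => absurd hv (Finset.notMem_empty v),
        fun v hv => absurd hv (Finset.notMem_empty v)⟩, fun v _ _ => hb v, ?_⟩
      rcases hb q with h1 | h1
      · exact absurd h1 huq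
      · exact h1
  · rcases isEmpty_or_nonempty V with hV | ⟨⟨v⟩⟩
    · have : ψ = 0 := Subsingleton.elim _ _
      rw [this]
      exact L.zero_mem
    · obtain ⟨u, hu, hb, huv⟩ := hψ.2 v
      rcases h.cor ψ hψ u hu hb with h1 | h1
      · rw [h1] at huv
        exact absurd rfl huv
      · rw [← h1]
        exact hu
  · intro D' hD' hf v
    have : D' = ψ := h.uniq D' ψ ⟨hD', fun v => hf v⟩ hψ
    rw [this]

/-- **inheritance**: the pair code of a part of the full state at `e` is in `AA` again. -/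
theorem AA.pair {e : V} {D : V → K} {P₀ : Finset (Finset V)} (h : AA L) (hP : IsParts L e D P₀)
    (hD : Hyp L e D) {M : Finset V} (hM : M ∈ P₀) : AA (pairCode L D e M) := by
  obtain ⟨ψ, hψ⟩ := AA.claim h
  exact (hψ.pair hP hD hM).aa

/-- the full state at a root and its parts -/
theorem AA.exists_parts (h : AA L) (e : V) : ∃ D P₀, D ∈ L ∧ Hyp L e D ∧ IsParts L e D P₀ := by
  obtain ⟨ψ, hψ⟩ := AA.claim h
  obtain ⟨D, hDL, hD⟩ := hψ.hyp e
  obtain ⟨P, hP⟩ := hD.exists_parts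
  exact ⟨D, P, hDL, hD, hP⟩

/-- every nonzero `z`-free word which is `0` somewhere splits -/
theorem AA.critAt (h : AA L) (e : V) : CritAt L e := by
  obtain ⟨D, P₀, -, hD, -⟩ := AA.exists_parts h e
  exact hD.split

end Pool.Agent.H26.TR
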