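import Pool.Agent.H26.TR.AA

set_option autoImplicit false

/-!
Deleting a leaf keeps the class `Claim` / `AA` (MP_a46c6f_co, target (A), helper28's note, step (4)).
-/

namespace Pool.Agent.H26.TR

open Finset Pool.Agent.H98.Code

variable {V : Type} [Fintype V] [DecidableEq V]
variable {L : Submodule (ZMod 2) (V → K)} {ψ : V → K} {l p : V} {r : V → K}

/-- `r` is the row of a leaf `l` with neighbour `p` -/
structure LeafRow (L : Submodule (ZMod 2) (V → K)) (l p : V) (r : V → K) : Prop where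
  ne : l ≠ p
  mem : r ∈ L
  let_l : (r l).1 = 1
  z_p : r p = z
  off : ∀ v, v ≠ l → v ≠ p → r v = 0

theorem LeafRow.pair (hr : LeafRow L l p r) (hL : IsCode L) {u : V → K} (hu : u ∈ L) :
    kf (u l) (r l) = (u p).1 := by
  have h0 := hL.iso u hu r hr.mem
  unfold form at h0
  have h1 : ∑ i, kf (u i) (r i) = kf (u l) (r l) + kf (u p) (r p) := by
    rw [← Finset.sum_pair hr.ne (f := fun i => kf (u i) (r i))]
    symm
    apply Finset.sum_subset (Finset.subset_univ _)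
    intro v _ hv
    rw [Finset.mem_insert, Finset.mem_singleton, not_or] at hv
    rw [hr.off v hv.1 hv.2]
    simp [kf]
  rw [h1, hr.z_p] at h0
  have h2 : kf (u p) z = (u p).1 := by simp [kf, z]
  rw [h2] at h0
  generalize kf (u l) (r l) = a at h0 ⊢
  generalize (u p).1 = b at h0 ⊢
  revert a b
  decide

theorem K_leaf1a (a b c : K) (h1 : b.1 = 1) (h2 : c.1 = 1) (h3 : kf b c = 1) (h4 : kf a b = 0)
    (h5 : kf a c = 1) : a = b := by
  revert a b c; decide

theorem K_leaf1b (a b c : K) (h1 : b.1 = 1) (h2 : c.1 = 1) (h3 : kf b c = 1) (h4 : kf a b = 0)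
    (h5 : kf a c = 0) : a = 0 := by
  revert a b c; decide

theorem K_leaf1 (a b c : K) (h1 : b.1 = 1) (h2 : c.1 = 1) (h3 : kf b c = 1) (h4 : kf a b = 0) :
    (kf a c = 1 → a = b) ∧ (kf a c = 0 → a = 0) :=
  ⟨K_leaf1a a b c h1 h2 h3 h4, K_leaf1b a b c h1 h2 h3 h4⟩

theorem K_leaf2 (a c : K) (h2 : c.1 = 1) (h4 : a.1 = 0) (h5 : kf a c = 0) : a = 0 := by
  revert a c; decide

theorem K_leaf3 (a b c d : K) (h1 : b.1 = 1) (h2 : c.1 = 1) (h3 : kf b c = 1) (hd : d.1 = 1)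
    (h4 : a = 0 ∨ a = d) (h5 : kf a c = 1) : d = b := by
  revert a b c d; decide

/-- the minor at a leaf -/
def leafMinor (L : Submodule (ZMod 2) (V → K)) (ψ : V → K) (l : V) :
    Submodule (ZMod 2) ({v // v ≠ l} → K) := Minor L (fun x => x.1) ψ

omit [Fintype V] [DecidableEq V] in
theorem mem_leafMinor (a : {v // v ≠ l} → K) :
    a ∈ leafMinor L ψ l ↔ ∃ u ∈ L, kf (u l) (ψ l) = 0 ∧ a = fun x => u x.1 := by
  constructor
  · rintro ⟨u, hu, hk, rfl⟩
    exact ⟨u, hu, hk l (by simp), rfl⟩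
  · rintro ⟨u, hu, hk, rfl⟩
    refine ⟨u, hu, ?_, rfl⟩
    intro v hv
    have : v = l := by
      by_contra hne
      exact hv ⟨⟨v, hne⟩, rfl⟩
    rw [this]
    exact hk

section

variable (h : Claim L ψ) (hr : LeafRow L l p r)
include h hr

theorem Claim.kf_psi : kf (ψ l) (r l) = 1 := by
  rw [hr.pair h.code h.mem]
  exact h.letter p

theorem Claim.leafA {u : V → K} (hu : u ∈ L) (hk : kf (u l) (ψ l) = 0) :
    ((u p).1 = 1 → u l = ψ l) ∧ ((u p).1 = 0 → u l = 0) := by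
  rw [← hr.pair h.code hu]
  exact K_leaf1 _ _ _ (h.letter l) hr.let_l (h.kf_psi hr) hk

theorem Claim.leafB {u : V → K} (hu : u ∈ L) (h1 : (u l).1 = 0) (h2 : (u p).1 = 0) : u l = 0 := by
  rw [← hr.pair h.code hu] at h2
  exact K_leaf2 _ _ hr.let_l h1 h2

theorem Claim.leafC {u : V → K} (hu : u ∈ L) {d : K} (hd : d.1 = 1) (h1 : u l = 0 ∨ u l = d)
    (h2 : (u p).1 = 1) : d = ψ l := by
  rw [← hr.pair h.code hu] at h2
  exact K_leaf3 _ _ _ _ (h.letter l) hr.let_l (h.kf_psi hr) hd h1 h2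

/-- (HER) for the minor at a leaf -/
theorem Claim.leaf_her : HER (leafMinor L ψ l) := by
  classical
  intro E P x hc
  set x' : V → K := fun v => if hv : v ≠ l then x ⟨v, hv⟩ else ψ l with hx'
  have x1 : ∀ (v : V) (hv : v ≠ l), x' v = x ⟨v, hv⟩ := by
    intro v hv
    rw [hx']
    simp only [dif_pos hv]
  have x2 : x' l = ψ l := by
    rw [hx']
    simp
  set E0 : Finset V := E.map (Function.Embedding.subtype _) with hE0
  set P0 : Finset V := P.map (Function.Embedding.subtype _) with hP0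
  have mE : ∀ (v : V) (hv : v ≠ l), v ∈ E0 ↔ (⟨v, hv⟩ : {v // v ≠ l}) ∈ E := by
    intro v hv
    rw [hE0, Finset.mem_map]
    constructor
    · rintro ⟨a, ha, rfl⟩
      exact ha
    · intro h0
      exact ⟨⟨v, hv⟩, h0, rfl⟩
  have mP : ∀ (v : V) (hv : v ≠ l), v ∈ P0 ↔ (⟨v, hv⟩ : {v // v ≠ l}) ∈ P := by
    intro v hv
    rw [hP0, Finset.mem_map]
    constructor
    · rintro ⟨a, ha, rfl⟩
      exact ha
    · intro h0
      exact ⟨⟨v, hv⟩, h0, rfl⟩
  have lE : l ∉ E0 := by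
    rw [hE0, Finset.mem_map]
    rintro ⟨a, _, ha⟩
    exact a.2 ha
  have lP : l ∉ P0 := by
    rw [hP0, Finset.mem_map]
    rintro ⟨a, _, ha⟩
    exact a.2 ha
  -- the final step
  have finish : ∀ E1 P1 : Finset V, (∀ (v : V) (hv : v ≠ l), v ∈ E1 ↔ (⟨v, hv⟩ : {v // v ≠ l}) ∈ E) →
      (∀ (v : V) (hv : v ≠ l), v ∈ P1 ↔ (⟨v, hv⟩ : {v // v ≠ l}) ∈ P) → HerAt L E1 P1 x' →
      (∀ g u, g ∉ E1 → g ∉ P1 → Rest L E1 P1 x' u → u g = z →
        (∀ v, v ∉ E1 → v ∉ P1 → v ≠ g → u v = 0) → g ≠ l ∧ kf (u l) (ψ l) = 0) →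
      (∀ φ : V → K, (∀ v, (φ v).1 = 1) → (∀ q, q ∉ E1 → q ∉ P1 →
        ∃ u, Rest L E1 P1 x' u ∧ (∀ v, v ∉ E1 → v ∉ P1 → u v = 0 ∨ u v = φ v) ∧ u q = φ q) →
        ∀ u, Rest L E1 P1 x' u → (∀ v, v ∉ E1 → v ∉ P1 → u v = 0 ∨ u v = φ v) →
        kf (u l) (ψ l) = 0) → HerAt (leafMinor L ψ l) E P x := by
    intro E1 P1 hE1 hP1 hH H1 H2
    have down : ∀ u : V → K, Rest L E1 P1 x' u → kf (u l) (ψ l) = 0 →
        Rest (leafMinor L ψ l) E P x (fun y => u y.1) := by
      rintro u ⟨hu, h1, h2⟩ hk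
      refine ⟨?_, ?_, ?_⟩
      · rw [mem_leafMinor]
        exact ⟨u, hu, hk, rfl⟩
      · rintro ⟨v, hv⟩ hvP
        have := h1 v ((hP1 v hv).2 hvP)
        rwa [x1 v hv] at this
      · rintro ⟨v, hv⟩ hvE
        exact h2 v ((hE1 v hv).2 hvE)
    rcases hH with ⟨g, hgE, hgP, u, hu, hug, hu0⟩ | ⟨φ, hφ, hfull⟩
    · left
      obtain ⟨hgl, hk⟩ := H1 g u hgE hgP hu hug hu0
      refine ⟨⟨g, hgl⟩, fun h0 => hgE ((hE1 g hgl).2 h0), fun h0 => hgP ((hP1 g hgl).2 h0),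
        fun y => u y.1, down u hu hk, hug, ?_⟩
      rintro ⟨v, hv⟩ h1 h2 h3
      exact hu0 v (fun h0 => h1 ((hE1 v hv).1 h0)) (fun h0 => h2 ((hP1 v hv).1 h0))
        (fun h0 => h3 (Subtype.ext h0))
    · right
      refine ⟨fun y => φ y.1, fun y => hφ y.1, ?_⟩
      rintro ⟨q, hq⟩ h1 h2
      obtain ⟨u, hu, hu1, hu2⟩ := hfull q (fun h0 => h1 ((hE1 q hq).1 h0)) (fun h0 => h2 ((hP1 q hq).1 h0))
      refine ⟨fun y => u y.1, down u hu (H2 φ hφ hfull u hu hu1), ?_, hu2⟩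
      rintro ⟨v, hv⟩ h3 h4
      exact hu1 v (fun h0 => h3 ((hE1 v hv).1 h0)) (fun h0 => h4 ((hP1 v hv).1 h0))
  have hpl : p ≠ l := hr.ne.symm
  -- lifting the covering words
  have lift : ∀ q : {v // v ≠ l}, q ∈ P → ∃ u ∈ L, kf (u l) (ψ l) = 0 ∧
      (∀ (v : V) (hv : v ≠ l), (⟨v, hv⟩ : {v // v ≠ l}) ∈ P → u v = 0 ∨ u v = x' v) ∧
      (∀ (v : V) (hv : v ≠ l), (⟨v, hv⟩ : {v // v ≠ l}) ∈ E → (u v).1 = 0) ∧
      (∀ (v : V) (hv : v ≠ l), (⟨v, hv⟩ : {v // v ≠ l}) ∉ E → (⟨v, hv⟩ : {v // v ≠ l}) ∉ P → u v = 0) ∧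
      u q.1 = x' q.1 := by
    intro q hq
    obtain ⟨a, ⟨ha1, ha2, ha3⟩, ha4, ha5⟩ := hc.2.2 q hq
    rw [mem_leafMinor] at ha1
    obtain ⟨u, hu, hk, rfl⟩ := ha1
    refine ⟨u, hu, hk, ?_, ?_, ?_, ?_⟩
    · intro v hv hvP
      rw [x1 v hv]
      exact ha2 ⟨v, hv⟩ hvP
    · intro v hv hvE
      exact ha3 ⟨v, hv⟩ hvE
    · intro v hv h1 h2
      exact ha4 ⟨v, hv⟩ h1 h2
    · rw [x1 q.1 q.2]
      exact ha5
  have hdis : ∀ (v : V) (hv : v ≠ l), (⟨v, hv⟩ : {v // v ≠ l}) ∈ E → (⟨v, hv⟩ : {v // v ≠ l}) ∉ P :=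
    fun v hv h1 h2 => Finset.disjoint_left.1 hc.1 h1 h2
  by_cases hpP : (⟨p, hpl⟩ : {v // v ≠ l}) ∈ P
  · -- the neighbour is in P: put l in P
    have mP1 : ∀ (v : V) (hv : v ≠ l), v ∈ insert l P0 ↔ (⟨v, hv⟩ : {v // v ≠ l}) ∈ P := by
      intro v hv
      rw [Finset.mem_insert, mP v hv]
      exact ⟨fun h0 => h0.resolve_left hv, Or.inr⟩
    have restOf : ∀ u ∈ L, kf (u l) (ψ l) = 0 →
        (∀ (v : V) (hv : v ≠ l), (⟨v, hv⟩ : {v // v ≠ l}) ∈ P → u v = 0 ∨ u v = x' v) →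
        (∀ (v : V) (hv : v ≠ l), (⟨v, hv⟩ : {v // v ≠ l}) ∈ E → (u v).1 = 0) →
        Rest L E0 (insert l P0) x' u := by
      intro u hu hk h1 h2
      refine ⟨hu, ?_, ?_⟩
      · intro v hv
        by_cases hvl : v = l
        · rw [hvl, x2]
          rwa [kf_eq_zero_iff _ _ (K_ne_zero_of_fst (h.letter l))] at hk
        · exact h1 v hvl ((mP1 v hvl).1 hv)
      · intro v hv
        have hvl : v ≠ l := fun h0 => lE (h0 ▸ hv)
        exact h2 v hvl ((mE v hvl).1 hv)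
    have hcov : Cov L E0 (insert l P0) x' := by
      refine ⟨?_, ?_, ?_⟩
      · rw [Finset.disjoint_left]
        intro v hvE hvP
        have hvl : v ≠ l := fun h0 => lE (h0 ▸ hvE)
        exact hdis v hvl ((mE v hvl).1 hvE) ((mP1 v hvl).1 hvP)
      · intro v hv
        by_cases hvl : v = l
        · rw [hvl, x2]
          exact h.letter l
        · rw [x1 v hvl]
          exact hc.2.1 _ ((mP1 v hvl).1 hv)
      · intro q hq
        by_cases hql : q = l
        · obtain ⟨u, hu, hk, h1, h2, h3, h4⟩ := lift ⟨p, hpl⟩ hpP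
          refine ⟨u, restOf u hu hk h1 h2, ?_, ?_⟩
          · intro v hvE hvP
            have hvl : v ≠ l := fun h0 => hvP (h0 ▸ Finset.mem_insert_self l P0)
            exact h3 v hvl (fun h0 => hvE ((mE v hvl).2 h0)) (fun h0 => hvP ((mP1 v hvl).2 h0))
          · rw [hql, x2]
            apply (h.leafA hr hu hk).1
            rw [h4, x1 p hpl]
            exact hc.2.1 _ hpP
        · obtain ⟨u, hu, hk, h1, h2, h3, h4⟩ := lift ⟨q, hql⟩ ((mP1 q hql).1 hq)
          refine ⟨u, restOf u hu hk h1 h2, ?_, h4⟩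
          intro v hvE hvP
          have hvl : v ≠ l := fun h0 => hvP (h0 ▸ Finset.mem_insert_self l P0)
          exact h3 v hvl (fun h0 => hvE ((mE v hvl).2 h0)) (fun h0 => hvP ((mP1 v hvl).2 h0))
    refine finish E0 (insert l P0) mE mP1 (h.her _ _ _ hcov) ?_ ?_
    · intro g u hgE hgP hu _ _
      refine ⟨fun h0 => hgP (h0 ▸ Finset.mem_insert_self l P0), ?_⟩
      rw [kf_eq_zero_iff _ _ (K_ne_zero_of_fst (h.letter l))]
      have := hu.2.1 l (Finset.mem_insert_self l P0)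
      rwa [x2] at this
    · intro φ _ _ u hu _
      rw [kf_eq_zero_iff _ _ (K_ne_zero_of_fst (h.letter l))]
      have := hu.2.1 l (Finset.mem_insert_self l P0)
      rwa [x2] at this
  by_cases hpE : (⟨p, hpl⟩ : {v // v ≠ l}) ∈ E
  · -- the neighbour is in E: put l in E
    have mE1 : ∀ (v : V) (hv : v ≠ l), v ∈ insert l E0 ↔ (⟨v, hv⟩ : {v // v ≠ l}) ∈ E := by
      intro v hv
      rw [Finset.mem_insert, mE v hv]
      exact ⟨fun h0 => h0.resolve_left hv, Or.inr⟩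
    have hcov : Cov L (insert l E0) P0 x' := by
      refine ⟨?_, ?_, ?_⟩
      · rw [Finset.disjoint_left]
        intro v hvE hvP
        have hvl : v ≠ l := fun h0 => lP (h0 ▸ hvP)
        exact hdis v hvl ((mE1 v hvl).1 hvE) ((mP v hvl).1 hvP)
      · intro v hv
        have hvl : v ≠ l := fun h0 => lP (h0 ▸ hv)
        rw [x1 v hvl]
        exact hc.2.1 _ ((mP v hvl).1 hv)
      · intro q hq
        have hql : q ≠ l := fun h0 => lP (h0 ▸ hq)
        obtain ⟨u, hu, hk, h1, h2, h3, h4⟩ := lift ⟨q, hql⟩ ((mP q hql).1 hq)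
        have hul : u l = 0 := (h.leafA hr hu hk).2 (h2 p hpl hpE)
        refine ⟨u, ⟨hu, ?_, ?_⟩, ?_, h4⟩
        · intro v hv
          have hvl : v ≠ l := fun h0 => lP (h0 ▸ hv)
          exact h1 v hvl ((mP v hvl).1 hv)
        · intro v hv
          by_cases hvl : v = l
          · rw [hvl, hul]; rfl
          · exact h2 v hvl ((mE1 v hvl).1 hv)
        · intro v hvE hvP
          have hvl : v ≠ l := fun h0 => hvE (h0 ▸ Finset.mem_insert_self l E0)
          exact h3 v hvl (fun h0 => hvE ((mE1 v hvl).2 h0)) (fun h0 => hvP ((mP v hvl).2 h0))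
    have key : ∀ u, Rest L (insert l E0) P0 x' u → kf (u l) (ψ l) = 0 := by
      intro u hu
      have h1 : (u l).1 = 0 := hu.2.2 l (Finset.mem_insert_self l E0)
      have h2 : (u p).1 = 0 := hu.2.2 p ((mE1 p hpl).2 hpE)
      rw [h.leafB hr hu.1 h1 h2]
      simp [kf]
    refine finish (insert l E0) P0 mE1 mP (h.her _ _ _ hcov) ?_ ?_
    · intro g u hgE hgP hu _ _
      exact ⟨fun h0 => hgE (h0 ▸ Finset.mem_insert_self l E0), key u hu⟩
    · intro φ _ _ u hu _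
      exact key u hu
  · -- the neighbour is free
    have hcov : Cov L E0 P0 x' := by
      refine ⟨?_, ?_, ?_⟩
      · rw [Finset.disjoint_left]
        intro v hvE hvP
        have hvl : v ≠ l := fun h0 => lP (h0 ▸ hvP)
        exact hdis v hvl ((mE v hvl).1 hvE) ((mP v hvl).1 hvP)
      · intro v hv
        have hvl : v ≠ l := fun h0 => lP (h0 ▸ hv)
        rw [x1 v hvl]
        exact hc.2.1 _ ((mP v hvl).1 hv)
      · intro q hq
        have hql : q ≠ l := fun h0 => lP (h0 ▸ hq)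
        obtain ⟨u, hu, hk, h1, h2, h3, h4⟩ := lift ⟨q, hql⟩ ((mP q hql).1 hq)
        have hul : u l = 0 := (h.leafA hr hu hk).2 (by rw [h3 p hpl hpE hpP]; rfl)
        refine ⟨u, ⟨hu, ?_, ?_⟩, ?_, h4⟩
        · intro v hv
          have hvl : v ≠ l := fun h0 => lP (h0 ▸ hv)
          exact h1 v hvl ((mP v hvl).1 hv)
        · intro v hv
          have hvl : v ≠ l := fun h0 => lE (h0 ▸ hv)
          exact h2 v hvl ((mE v hvl).1 hv)
        · intro v hvE hvP
          by_cases hvl : v = l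
          · rw [hvl]; exact hul
          · exact h3 v hvl (fun h0 => hvE ((mE v hvl).2 h0)) (fun h0 => hvP ((mP v hvl).2 h0))
    have hpE0 : p ∉ E0 := fun h0 => hpE ((mE p hpl).1 h0)
    have hpP0 : p ∉ P0 := fun h0 => hpP ((mP p hpl).1 h0)
    refine finish E0 P0 mE mP (h.her _ _ _ hcov) ?_ ?_
    · intro g u hgE hgP hu hug hu0
      have hgl : g ≠ l := by
        intro h0
        have hup : u p = 0 := hu0 p hpE0 hpP0 (fun h1 => hpl (h1.trans h0))
        have h1 : (u l).1 = 0 := by rw [← h0, hug]; rfl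
        have h2 : (u p).1 = 0 := by rw [hup]; rfl
        have h3 := h.leafB hr hu.1 h1 h2
        rw [← h0, hug] at h3
        exact absurd h3 (by decide)
      refine ⟨hgl, ?_⟩
      rw [hu0 l lE lP (fun h1 => hgl h1.symm)]
      simp [kf]
    · intro φ hφ hfull u hu hu1
      obtain ⟨w, hw, hw1, hw2⟩ := hfull p hpE0 hpP0
      have hd : φ l = ψ l := h.leafC hr hw.1 (hφ l) (hw1 l lE lP) (by rw [hw2]; exact hφ p)
      rw [kf_eq_zero_iff _ _ (K_ne_zero_of_fst (h.letter l)), ← hd]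
      exact hu1 l lE lP

/-- **Leaf deletion**: the minor at a leaf, with the letter of the full state, is in the class again. -/
theorem Claim.leaf : Claim (leafMinor L ψ l) (fun x => ψ x.1) := by
  classical
  have hpl : p ≠ l := hr.ne.symm
  refine ⟨?_, ?_, h.leaf_her hr, fun x => h.letter x.1, ?_, ?_, ?_⟩
  · exact minor_isCode h.code Subtype.val_injective (fun v _ => K_ne_zero_of_fst (h.letter v))
  · intro a ha hz
    rw [mem_leafMinor] at ha
    obtain ⟨u, hu, hk, rfl⟩ := ha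
    have hul : u l = 0 := (h.leafA hr hu hk).2 (hz ⟨p, hpl⟩)
    have : u = 0 := by
      apply h.noz u hu
      intro v
      by_cases hv : v = l
      · rw [hv, hul]; rfl
      · exact hz ⟨v, hv⟩
    rw [this]
    rfl
  · rw [mem_leafMinor]
    exact ⟨ψ, h.mem, kf_self _, rfl⟩
  · intro D' hlet hfull
    set D'' : V → K := fun v => if hv : v ≠ l then D' ⟨v, hv⟩ else ψ l with hD''
    have d1 : ∀ (v : V) (hv : v ≠ l), D'' v = D' ⟨v, hv⟩ := by
      intro v hv
      rw [hD'']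
      simp only [dif_pos hv]
    have d2 : D'' l = ψ l := by
      rw [hD'']
      simp
    have key := h.unique D'' ?_ ?_
    · intro x
      have := key x.1
      rw [d1 x.1 x.2] at this
      exact this
    · intro v
      by_cases hv : v = l
      · rw [hv, d2]; exact h.letter l
      · rw [d1 v hv]; exact hlet _
    · have lift : ∀ q : {v // v ≠ l}, ∃ u ∈ L, kf (u l) (ψ l) = 0 ∧ (∀ w, u w = 0 ∨ u w = D'' w) ∧
          u q.1 ≠ 0 := by
        intro q
        obtain ⟨a, ha, ha1, ha2⟩ := hfull q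
        rw [mem_leafMinor] at ha
        obtain ⟨u, hu, hk, rfl⟩ := ha
        refine ⟨u, hu, hk, ?_, ha2⟩
        intro w
        by_cases hw : w = l
        · rw [hw, d2]
          rwa [kf_eq_zero_iff _ _ (K_ne_zero_of_fst (h.letter l))] at hk
        · rw [d1 w hw]
          exact ha1 ⟨w, hw⟩
      intro v
      by_cases hv : v = l
      · obtain ⟨u, hu, hk, h1, h2⟩ := lift ⟨p, hpl⟩
        refine ⟨u, hu, h1, ?_⟩
        rw [hv, (h.leafA hr hu hk).1 ?_]
        · exact K_ne_zero_of_fst (h.letter l)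
        · rcases h1 p with h3 | h3
          · exact absurd h3 h2
          · rw [h3, d1 p hpl]
            exact hlet _
      · obtain ⟨u, hu, -, h1, h2⟩ := lift ⟨v, hv⟩
        exact ⟨u, hu, h1, h2⟩
  · intro a ha hle
    rw [mem_leafMinor] at ha
    obtain ⟨u, hu, hk, rfl⟩ := ha
    have hle' : ∀ w, u w = 0 ∨ u w = ψ w := by
      intro w
      by_cases hw : w = l
      · rw [hw]
        rwa [kf_eq_zero_iff _ _ (K_ne_zero_of_fst (h.letter l))] at hk
      · exact hle ⟨w, hw⟩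
    rcases h.corank u hu hle' with h1 | h1
    · left
      rw [h1]
      rfl
    · right
      rw [h1]

end

/-- leaf deletion for `AA` -/
theorem AA.leaf (h : AA L) (hr : LeafRow L l p r) : ∃ ψ : V → K, Claim L ψ ∧ ψ l = r l + z ∧
    AA (leafMinor L ψ l) := by
  obtain ⟨ψ, hψ⟩ := AA.claim h
  refine ⟨ψ, hψ, ?_, (hψ.leaf hr).aa⟩
  have h1 := hψ.kf_psi hr
  have h2 := hψ.letter l
  have h3 := hr.let_l
  generalize ψ l = a at h1 h2 ⊢
  generalize r l = b at h1 h3 ⊢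
  revert a b
  decide

end Pool.Agent.H26.TR
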