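import Pool.Agent.H98.Code.Minor
import Pool.Agent.H26.TR.Full

set_option autoImplicit false

/-!
The pair codes of a full state at `e` (MP_a46c6f_co, note 6873 (2)(b)).
-/

namespace Pool.Agent.H26.TR

open Finset Pool.Agent.H98.Code

variable {V : Type} [Fintype V] [DecidableEq V]
variable {L : Submodule (ZMod 2) (V → K)} {e : V} {D : V → K}

/-- the parts of a full state -/
structure IsParts (L : Submodule (ZMod 2) (V → K)) (e : V) (D : V → K) (P : Finset (Finset V)) : Prop where
  mem : ∀ M ∈ P, M ≠ ∅ ∧ e ∉ M ∧ pw D e M ∈ L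
  disj : ∀ M ∈ P, ∀ N ∈ P, M ≠ N → Disjoint M N
  cover : ∀ v, v ≠ e → ∃ M ∈ P, v ∈ M
  union : ∀ u, KD L D e u → ∀ M ∈ P, M ⊆ sup e u ∨ Disjoint M (sup e u)

theorem Hyp.exists_parts (h : Hyp L e D) : ∃ P, IsParts L e D P := by
  obtain ⟨P, h1, h2, h3, h4⟩ := h.decomp
  exact ⟨P, ⟨h1, h2, h3, h4⟩⟩

variable {P : Finset (Finset V)}

/-- changing the state on one part: if the changed state is still full on this part, it is a full state. -/
theorem IsParts.hyp_change (hP : IsParts L e D P) (h : Hyp L e D) {M : Finset V} (hM : M ∈ P)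
    (D' : V → K) (hoff : ∀ v, v ∉ M → D' v = D v) (hlet : ∀ v, v ∈ M → (D' v).1 = 1)
    (hfull : ∀ v, v ∈ M → ∃ u, KD L D' e u ∧ u v ≠ 0) : Hyp L e D' := by
  have hlet' : ∀ v, v ≠ e → (D' v).1 = 1 := by
    intro v hv
    by_cases hvM : v ∈ M
    · exact hlet v hvM
    · rw [hoff v hvM]; exact h.letter v hv
  refine ⟨h.iso, h.noz, h.split, hlet', ?_⟩
  intro v hv
  by_cases hvM : v ∈ M
  · exact hfull v hvM
  · obtain ⟨M', hM', hvM'⟩ := hP.cover v hv
    have hne : M' ≠ M := by
      rintro rfl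
      exact hvM hvM'
    refine ⟨pw D e M', ⟨(hP.mem M' hM').2.2, ?_, Or.inr (by simp [pw])⟩, ?_⟩
    · intro w hw
      unfold pw
      rw [if_neg hw]
      by_cases hwM' : w ∈ M'
      · rw [if_pos hwM']
        right
        rw [hoff w (Finset.disjoint_left.1 (hP.disj M' hM' M hM hne) hwM')]
      · rw [if_neg hwM']
        exact Or.inl rfl
    · unfold pw
      rw [if_neg hv, if_pos hvM']
      exact h.D_ne hv

/-- no `{0,z}`-word in the pair code -/
theorem IsParts.pair_noZ (hP : IsParts L e D P) (h : Hyp L e D) (hz : NoZ L) {M : Finset V}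
    (hM : M ∈ P) {u : V → K} (hu : u ∈ L) (hoff : ∀ v, v ∉ M → v ≠ e → u v = 0 ∨ u v = D v)
    (hue : u e = 0 ∨ u e = z) (huM : ∀ v, v ∈ M → (u v).1 = 0) : ∀ v, v ∈ M → u v = 0 := by
  have heM : e ∉ M := (hP.mem M hM).2.1
  set D' : V → K := fun v => if v ∈ M then D v + u v else D v with hD'
  have hne : ∀ v, v ∈ M → v ≠ e := fun v hv h0 => heM (h0 ▸ hv)
  have hlet : ∀ v, v ∈ M → (D' v).1 = 1 := by
    intro v hv
    rw [hD']
    simp only [if_pos hv]
    rw [Prod.fst_add, h.letter v (hne v hv), huM v hv, add_zero]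
  have hw : KD L D' e (pw D e M + u) := by
    refine ⟨L.add_mem (hP.mem M hM).2.2 hu, ?_, ?_⟩
    · intro w hw
      rw [Pi.add_apply, hD']
      unfold pw
      by_cases hwM : w ∈ M
      · right
        simp only [if_neg hw, if_pos hwM]
      · simp only [if_neg hw, if_neg hwM, zero_add]
        exact hoff w hwM hw
    · rw [Pi.add_apply]
      have : pw D e M e = z := by simp [pw]
      rw [this]
      rcases hue with h1 | h1
      · right; rw [h1, add_zero]
      · left; rw [h1, K_add_self]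
  have h' : Hyp L e D' := by
    refine hP.hyp_change h hM D' ?_ hlet ?_
    · intro v hv
      rw [hD']
      simp only [if_neg hv]
    · intro v hv
      refine ⟨_, hw, ?_⟩
      rw [Pi.add_apply]
      unfold pw
      rw [if_neg (hne v hv), if_pos hv]
      intro h0
      have h1 := hlet v hv
      rw [hD'] at h1
      simp only [if_pos hv] at h1
      rw [h0] at h1
      exact absurd h1 (by decide)
  intro v hv
  have h1 := h.unique h' hz v (hne v hv)
  rw [hD'] at h1
  simp only [if_pos hv] at h1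
  have h2 : D v + D v = D v + (D v + u v) := by rw [← h1]
  rw [K_add_self, ← add_assoc, K_add_self, zero_add] at h2
  exact h2.symm

/-- the pair code has only one full state -/
theorem IsParts.pair_unique (hP : IsParts L e D P) (h : Hyp L e D) (hz : NoZ L) {M : Finset V}
    (hM : M ∈ P) (D' : V → K) (hoff : ∀ v, v ∉ M → D' v = D v) (hlet : ∀ v, v ∈ M → (D' v).1 = 1)
    (hfull : ∀ v, v ∈ M → ∃ u, KD L D' e u ∧ u v ≠ 0) : ∀ v, v ∈ M → D' v = D v := by
  have h' := hP.hyp_change h hM D' hoff hlet hfull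
  intro v hv
  have hne : v ≠ e := fun h0 => (hP.mem M hM).2.1 (h0 ▸ hv)
  exact (h.unique h' hz v hne).symm

/-- the letters outside the part: `z` at `e`, the state elsewhere -/
def sig (D : V → K) (e : V) : V → K := fun v => if v = e then z else D v

theorem Hyp.sig_ne (h : Hyp L e D) (v : V) : sig D e v ≠ 0 := by
  unfold sig
  by_cases hv : v = e
  · rw [if_pos hv]; decide
  · rw [if_neg hv]; exact h.D_ne hv

/-- the pair code of a part -/
def pairCode (L : Submodule (ZMod 2) (V → K)) (D : V → K) (e : V) (M : Finset V) :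
    Submodule (ZMod 2) ({v // v ∈ M} → K) := Minor L (fun x => x.1) (sig D e)

theorem Hyp.mem_pairCode (h : Hyp L e D) {M : Finset V} (heM : e ∉ M) (a : {v // v ∈ M} → K) :
    a ∈ pairCode L D e M ↔ ∃ u ∈ L, (∀ v, v ∉ M → v ≠ e → u v = 0 ∨ u v = D v) ∧
      (u e = 0 ∨ u e = z) ∧ a = fun x => u x.1 := by
  have hr : ∀ v : V, v ∉ Set.range (fun x : {v // v ∈ M} => x.1) ↔ v ∉ M := by
    intro v
    simp
  constructor
  · rintro ⟨u, hu, hk, rfl⟩
    refine ⟨u, hu, ?_, ?_, rfl⟩
    · intro v hv hve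
      have := hk v ((hr v).2 hv)
      rw [kf_eq_zero_iff _ _ (h.sig_ne v)] at this
      rwa [sig, if_neg hve] at this
    · have := hk e ((hr e).2 heM)
      rw [kf_eq_zero_iff _ _ (h.sig_ne e)] at this
      rwa [sig, if_pos rfl] at this
  · rintro ⟨u, hu, h1, h2, rfl⟩
    refine ⟨u, hu, ?_, rfl⟩
    intro v hv
    rw [kf_eq_zero_iff _ _ (h.sig_ne v)]
    by_cases hve : v = e
    · rw [hve, sig, if_pos rfl]
      exact h2
    · rw [sig, if_neg hve]
      exact h1 v ((hr v).1 hv) hve

/-- **(b) of note 6873**: the pair code of a part is a code without `{0,z}`-words, the letters of the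
state give a word of it, this is its only full state, and the only words of this state are `0` and
the full one. -/
theorem IsParts.pairCode_spec (hP : IsParts L e D P) (h : Hyp L e D) (hL : IsCode L) (hz : NoZ L)
    {M : Finset V} (hM : M ∈ P) :
    IsCode (pairCode L D e M) ∧ NoZ (pairCode L D e M) ∧
    (fun x : {v // v ∈ M} => D x.1) ∈ pairCode L D e M ∧
    (∀ D' : {v // v ∈ M} → K, (∀ x, (D' x).1 = 1) →
      (∀ x, ∃ a ∈ pairCode L D e M, (∀ y, a y = 0 ∨ a y = D' y) ∧ a x ≠ 0) →
      ∀ x, D' x = D x.1) ∧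
    (∀ a ∈ pairCode L D e M, (∀ y, a y = 0 ∨ a y = D y.1) → a = 0 ∨ a = fun y => D y.1) := by
  have heM : e ∉ M := (hP.mem M hM).2.1
  have hne : ∀ v, v ∈ M → v ≠ e := fun v hv h0 => heM (h0 ▸ hv)
  refine ⟨?_, ?_, ?_, ?_, ?_⟩
  · exact minor_isCode hL Subtype.val_injective (fun v _ => h.sig_ne v)
  · intro a ha hza
    rw [h.mem_pairCode heM] at ha
    obtain ⟨u, hu, h1, h2, rfl⟩ := ha
    funext x
    exact hP.pair_noZ h hz hM hu h1 h2 (fun v hv => hza ⟨v, hv⟩) x.1 x.2
  · rw [h.mem_pairCode heM]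
    refine ⟨pw D e M, (hP.mem M hM).2.2, ?_, Or.inr (by simp [pw]), ?_⟩
    · intro v hv hve
      left
      simp [pw, hv, hve]
    · funext x
      simp [pw, hne x.1 x.2, x.2]
  · intro D' hlet hfull
    set D'' : V → K := fun v => if hv : v ∈ M then D' ⟨v, hv⟩ else D v with hD''
    have hoff : ∀ v, v ∉ M → D'' v = D v := by
      intro v hv
      rw [hD'']
      simp only [dif_neg hv]
    have hon : ∀ (v : V) (hv : v ∈ M), D'' v = D' ⟨v, hv⟩ := by
      intro v hv
      rw [hD'']
      simp only [dif_pos hv]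
    have key := hP.pair_unique h hz hM D'' hoff (fun v hv => by rw [hon v hv]; exact hlet _) ?_
    · intro x
      have := key x.1 x.2
      rw [hon x.1 x.2] at this
      exact this
    · intro v hv
      obtain ⟨a, ha, ha1, ha2⟩ := hfull ⟨v, hv⟩
      rw [h.mem_pairCode heM] at ha
      obtain ⟨u, hu, h1, h2, rfl⟩ := ha
      refine ⟨u, ⟨hu, ?_, h2⟩, ha2⟩
      intro w hw
      by_cases hwM : w ∈ M
      · rw [hon w hwM]
        exact ha1 ⟨w, hwM⟩
      · rw [hoff w hwM]
        exact h1 w hwM hw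
  · intro a ha hale
    rw [h.mem_pairCode heM] at ha
    obtain ⟨u, hu, h1, h2, rfl⟩ := ha
    have hk : KD L D e u := by
      refine ⟨hu, ?_, h2⟩
      intro w hw
      by_cases hwM : w ∈ M
      · exact hale ⟨w, hwM⟩
      · exact h1 w hwM hw
    rcases hP.union u hk M hM with h3 | h3
    · right
      funext x
      have h4 := (mem_sup.1 (h3 x.2)).2
      rcases hale x with h5 | h5
      · exact absurd h5 h4
      · exact h5
    · left
      funext x
      have h4 := Finset.disjoint_left.1 h3 x.2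
      rw [mem_sup] at h4
      by_contra h5
      exact h4 ⟨hne x.1 x.2, h5⟩

end Pool.Agent.H26.TR
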