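import Pool.Agent.H32.AA.One
import Pool.Agent.H26.TR.Ns

set_option autoImplicit false

/-!
Codes of trees with a root `e` at which the full state has one part: `e` is a leaf; there is another
leaf which is not attached at `e` (MP_a46c6f_co).
-/

namespace Pool.Agent.H26.TR

open Finset Pool.Agent.H98.Code Pool.Agent.H32.AA

section
variable {W : Type} [Fintype W] [DecidableEq W]

/-- `e` is a leaf when the full state at `e` has one part -/
theorem leaf_root {N : Submodule (ZMod 2) (W → K)} {H : W → W → ZMod 2} (hH : IsMat N H)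
    (hT : (graph N).IsAcyclic) (e : W) (D : W → K) (hD : ∀ v, v ≠ e → (D v).1 = 1)
    (hw : (fun v => if v = e then z else D v) ∈ N)
    (huniq : ∀ u ∈ N, (u e).1 = 0 → (∀ v, v ≠ e → u v = 0 ∨ u v = D v) →
      (∀ v, v ≠ e → u v = 0) ∨ (∀ v, v ≠ e → u v = D v)) :
    ∃ a, a ≠ e ∧ ∀ w, (graph N).Adj e w ↔ w = a := by
  classical
  have zm : ∀ a : ZMod 2, a = 0 ∨ a = 1 := by decide
  -- values of the full word
  have hsnd : ∀ v, v ≠ e → (D v).2 = ∑ w ∈ Finset.univ.erase e, H v w := by
    intro v hv
    have h1 := (hH.2 _).1 hw v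
    simp only [if_neg hv] at h1
    rw [h1, ← Finset.add_sum_erase _ _ (Finset.mem_univ e)]
    simp only [if_true]
    rw [show (z : K).1 = 0 from rfl, mul_zero, zero_add]
    apply Finset.sum_congr rfl
    intro w hwe
    rw [if_neg (Finset.ne_of_mem_erase hwe), hD w (Finset.ne_of_mem_erase hwe), mul_one]
  have hsnde : (1 : ZMod 2) = ∑ w ∈ Finset.univ.erase e, H e w := by
    have h1 := (hH.2 _).1 hw e
    simp only [if_true] at h1
    rw [show (z : K).2 = 1 from rfl] at h1
    rw [h1, ← Finset.add_sum_erase _ _ (Finset.mem_univ e)]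
    simp only [if_true]
    rw [show (z : K).1 = 0 from rfl, mul_zero, zero_add]
    apply Finset.sum_congr rfl
    intro w hwe
    rw [if_neg (Finset.ne_of_mem_erase hwe), hD w (Finset.ne_of_mem_erase hwe), mul_one]
  obtain ⟨a, hae, ha1⟩ : ∃ a, a ≠ e ∧ H e a = 1 := by
    by_contra hno
    push Not at hno
    have : ∑ w ∈ Finset.univ.erase e, H e w = 0 := by
      apply Finset.sum_eq_zero
      intro w hwe
      rcases zm (H e w) with h1 | h1
      · exact h1
      · exact absurd h1 (hno w (Finset.ne_of_mem_erase hwe))
    rw [this] at hsnde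
    exact absurd hsnde (by decide)
  refine ⟨a, hae, ?_⟩
  have hadj : (graph N).Adj e a := (adj_iff hH e a).2 ⟨hae.symm, ha1⟩
  intro b
  constructor
  · intro hb
    by_contra hba
    have hbe : b ≠ e := hb.ne'
    -- the side of `a`
    have hbr : (graph N).IsBridge s(e, a) := (SimpleGraph.isAcyclic_iff_forall_adj_isBridge.1 hT) hadj
    set G' : SimpleGraph W := (graph N) \ SimpleGraph.fromEdgeSet {s(e, a)} with hG'
    have hnr : ¬ G'.Reachable e a := by
      have := (SimpleGraph.isBridge_iff.1 hbr)
      first
        | exact this.2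
        | exact this
    set C : Finset W := univ.filter fun w => G'.Reachable a w with hC
    have memC : ∀ w, w ∈ C ↔ G'.Reachable a w := by
      intro w
      rw [hC, Finset.mem_filter]
      exact ⟨fun h => h.2, fun h => ⟨Finset.mem_univ _, h⟩⟩
    have haC : a ∈ C := (memC a).2 (SimpleGraph.Reachable.refl a)
    have heC : e ∉ C := fun h => hnr ((memC e).1 h).symm
    have hcl : ∀ v w, v ∈ C → (graph N).Adj v w → w ≠ e → w ∈ C := by
      intro v w hv hvw hwe
      rw [memC] at hv ⊢
      refine hv.trans (SimpleGraph.Adj.reachable ?_)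
      rw [hG', SimpleGraph.sdiff_adj, SimpleGraph.fromEdgeSet_adj]
      refine ⟨hvw, ?_⟩
      rintro ⟨h1, -⟩
      rw [Set.mem_singleton_iff, Sym2.eq_iff] at h1
      rcases h1 with ⟨h2, -⟩ | ⟨-, h3⟩
      · rw [h2] at hv
        exact hnr hv.symm
      · exact hwe h3
    have hcl2 : ∀ v, v ∈ C → (graph N).Adj v e → v = a := by
      intro v hv hve
      by_contra hva
      apply heC
      rw [memC] at hv ⊢
      refine hv.trans (SimpleGraph.Adj.reachable ?_)
      rw [hG', SimpleGraph.sdiff_adj, SimpleGraph.fromEdgeSet_adj]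
      refine ⟨hve, ?_⟩
      rintro ⟨h1, -⟩
      rw [Set.mem_singleton_iff, Sym2.eq_iff] at h1
      rcases h1 with ⟨h2, -⟩ | ⟨h2, -⟩
      · rw [h2] at hve
        exact hve.ne rfl
      · exact hva h2
    have hbC : b ∉ C := fun h => hba (hcl2 b h hb.symm)
    -- the word of `C`
    set u : W → K := fun v => (if v ∈ C then 1 else 0, ∑ w ∈ C, H v w) with hu
    have huN : u ∈ N := by
      rw [hH.2]
      intro v
      rw [hu]
      simp only
      rw [← Finset.sum_filter_add_sum_filter_not univ (fun w => w ∈ C)]
      have e1 : ∑ w ∈ univ.filter (fun w => w ∈ C), H v w * (if w ∈ C then (1 : ZMod 2) else 0) =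
          ∑ w ∈ C, H v w := by
        rw [Finset.filter_mem_eq_inter, Finset.univ_inter]
        apply Finset.sum_congr rfl
        intro w hw'
        rw [if_pos hw', mul_one]
      have e2 : ∑ w ∈ univ.filter (fun w => ¬ w ∈ C), H v w * (if w ∈ C then (1 : ZMod 2) else 0) = 0 := by
        apply Finset.sum_eq_zero
        intro w hw'
        rw [if_neg (Finset.mem_filter.1 hw').2, mul_zero]
      rw [e1, e2, add_zero]
    have hin : ∀ v, v ∈ C → u v = D v := by
      intro v hv
      have hve : v ≠ e := fun h => heC (h ▸ hv)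
      apply Prod.ext
      · rw [hD v hve, hu]
        simp only [if_pos hv]
      · rw [hsnd v hve, hu]
        simp only
        have hCs : C ⊆ Finset.univ.erase e := by
          intro w hw'
          exact Finset.mem_erase.2 ⟨fun h => heC (h ▸ hw'), Finset.mem_univ _⟩
        apply Finset.sum_subset hCs
        intro w hwe hwC
        rcases zm (H v w) with h1 | h1
        · exact h1
        · exfalso
          have hvw : v ≠ w := fun h => hwC (h ▸ hv)
          exact hwC (hcl v w hv ((adj_iff hH v w).2 ⟨hvw, h1⟩) (Finset.ne_of_mem_erase hwe))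
    have hout : ∀ v, v ∉ C → v ≠ e → u v = 0 := by
      intro v hv hve
      apply Prod.ext
      · rw [hu]
        simp only [if_neg hv]
        rfl
      · rw [hu]
        simp only
        apply Finset.sum_eq_zero
        intro w hw'
        rcases zm (H v w) with h1 | h1
        · exact h1
        · exfalso
          have hvw : w ≠ v := fun h => hv (h ▸ hw')
          rw [hH.1] at h1
          exact hv (hcl w v hw' ((adj_iff hH w v).2 ⟨hvw, h1⟩) hve)
    have hue : (u e).1 = 0 := by
      rw [hu]
      simp only [if_neg heC]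
    rcases huniq u huN hue (fun v hv => by
      by_cases hvC : v ∈ C
      · exact Or.inr (hin v hvC)
      · exact Or.inl (hout v hvC hv)) with h1 | h1
    · have h2 := h1 a hae
      rw [hin a haC] at h2
      have h3 := hD a hae
      rw [h2] at h3
      exact absurd h3 (by decide)
    · have h2 := h1 b hbe
      rw [hout b hbC hbe] at h2
      have h3 := hD b hbe
      rw [← h2] at h3
      exact absurd h3 (by decide)
  · rintro rfl
    exact hadj

/-- another leaf, not attached at `e` -/
theorem other_leaf (T : SimpleGraph W) (hT : T.IsTree) (e a : W) (ha : ∀ w, T.Adj e w ↔ w = a)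
    (hcard : 3 ≤ Fintype.card W) : ∃ l g, l ≠ e ∧ g ≠ e ∧ g ≠ l ∧ ∀ w, T.Adj l w ↔ w = g := by
  classical
  haveI : Nontrivial W := Fintype.one_lt_card_iff_nontrivial.1 (by omega)
  have hpos : ∀ v, 0 < T.degree v := fun v => hT.1.preconnected.degree_pos_of_nontrivial v
  obtain ⟨l, hle, hl1⟩ : ∃ l, l ≠ e ∧ T.degree l = 1 := by
    by_contra hno
    push Not at hno
    have h2 : ∀ v, v ≠ e → 2 ≤ T.degree v := by
      intro v hv
      have h3 := hno v hv
      have h4 := hpos v
      omega
    have hsum := T.sum_degrees_eq_twice_card_edges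
    have hcardE := hT.card_edgeFinset
    rw [← Finset.add_sum_erase _ _ (Finset.mem_univ e)] at hsum
    have h5 : ∑ v ∈ Finset.univ.erase e, 2 ≤ ∑ v ∈ Finset.univ.erase e, T.degree v :=
      Finset.sum_le_sum fun v hv => h2 v (Finset.ne_of_mem_erase hv)
    rw [Finset.sum_const, Finset.card_erase_of_mem (Finset.mem_univ e), Finset.card_univ,
      smul_eq_mul] at h5
    have h6 := hpos e
    omega
  rw [SimpleGraph.degree_eq_one_iff_existsUnique_adj] at hl1
  obtain ⟨g, hg, hgu⟩ := hl1
  refine ⟨l, g, hle, ?_, hg.ne', fun w => ⟨fun h => hgu w h, fun h => h ▸ hg⟩⟩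
  intro hge
  subst hge
  have hla : l = a := (ha l).1 hg.symm
  -- everything is in {g, l}
  have hall : ∀ w, w = g ∨ w = l := by
    intro w
    obtain ⟨p⟩ := hT.1.preconnected g w
    have : ∀ (x y : W) (q : T.Walk x y), (x = g ∨ x = l) → (y = g ∨ y = l) := by
      intro x y q
      induction q with
      | nil => exact id
      | cons h _ ih =>
        intro hx
        apply ih
        rcases hx with hx | hx
        · subst hx
          right
          rw [hla]
          exact (ha _).1 h
        · subst hx
          left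
          exact hgu _ h
    exact this g w p (Or.inl rfl)
  have hle2 : Fintype.card W ≤ 2 := by
    rw [← Finset.card_univ]
    calc (Finset.univ : Finset W).card ≤ ({g, l} : Finset W).card := by
          apply Finset.card_le_card
          intro w _
          rw [Finset.mem_insert, Finset.mem_singleton]
          exact hall w
      _ ≤ 2 := Finset.card_le_two
  omega

end

end Pool.Agent.H26.TR
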